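import Pool.Agent.Helper65K9.MD.Ma
import Pool.Agent.Helper65K9.KT.Main

set_option autoImplicit false

/-!
Integral `K_2` of the curves `λ ∏_{0 ≤ i ≤ r_0} (x_0 - a_{0,i}) ∏_{0 ≤ i ≤ r_1} (x_1 - a_{1,i}) = 1`
of genus `g = r_0 r_1` (`r_0, r_1 ≥ 1`) over `ℚ`, for *arbitrary* distinct integers `a_{k,i}` and all
nonzero integers `λ` with `|λ| ≥ 48`, and for *all* nonzero integers `λ` if `r_0 ≥ 8` or `r_1 ≥ 8`:
the `g` symbols `{(x_0 - a_{0,i}) / (x_0 - a_{0,i+1}), (x_1 - a_{1,j}) / (x_1 - a_{1,j+1})}` are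
unramified, and their regulators on `g` loops of the curve are independent. Here `g = g [ℚ : ℚ]` is
the number of classes predicted by Beilinson. There are similar statements with explicit constants
for fields with one infinite place and for the embeddings of arbitrary number fields, without any
condition on the mutual distances of the `a_{k,i}` (only their minimum enters, by scaling).

The proof: by packing, the polynomials `∏_i (x_k - a_{k,i})` are large outside of the discs around
the `a_{k,i}` of one third of the minimal distance. Up to small errors the matrix of the regulators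
is the sum of the logarithmic Laplacians of the two families of points, which is positive definite
on the mixed differences of the rows, with an explicit spectral gap. Built on the starting library
`Pool/Agent/TH826/UM`.
-/

namespace Pool.Agent.Results.MP_0a9c3b_nt.BidegreeCurves

open Pool.Agent.TH826.MK (KQ symb Unramified Torus)

open Pool.Agent.TH826.MH

/-- Let `K` be a number field, `σ : K → ℂ` an embedding, `r_0, r_1 ≥ 1`, and let `λ` and `a_{k,i}`
(`k = 0, 1`, `0 ≤ i ≤ r_k`) be algebraic integers of `K`. Suppose that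
* `K` has only one infinite place (`K = ℚ` or `K` is imaginary quadratic), `λ ≠ 0`, the `a_{k,i}` are
  different for every `k`, and `M = |σ λ|`, or
* there are `D_0, D_1 > 0` such that `|σ a_{k,i} - σ a_{k,j}| ≥ D_k` for `i ≠ j`, and
  `M = |σ λ| D_0 ^ (r_0 + 1) D_1 ^ (r_1 + 1) ≥ 1`;
and suppose that
* all `σ a_{k,i}` are real (e.g. `K = ℚ`), and `M ≥ 48` or `r_0 ≥ 8` or `r_1 ≥ 8`, or
* `M ≥ 25000` or `r_0 ≥ 33` or `r_1 ≥ 33`.
Then the coordinate ring of the curve `λ ∏_i (x_0 - a_{0,i}) ∏_i (x_1 - a_{1,i}) = 1` is a domain;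
the curve is smooth at its complex points over `σ`; the `r_0 r_1` symbols `{u_{0,i}, u_{1,j}}`,
`u_{k,i} = (x_k - a_{k,i}) / (x_k - a_{k,i+1})`, are unramified at all discrete valuations of the
function field; and there are `r_0 r_1` loops in the complex points (over `σ`) of the curve such that
the determinant of the regulators of the symbols on the loops does not vanish. -/
theorem result (K : Type*) [Field K] [NumberField K] (σ : K →+* ℂ) (r : Fin 2 → ℕ)
    (hr : ∀ k, 1 ≤ r k) (lam : K) (a : ∀ k, Fin (r k + 1) → K) (hlam : IsIntegral ℤ lam)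
    (ha : ∀ k i, IsIntegral ℤ (a k i)) (M : ℝ)
    (hM : (Subsingleton (NumberField.InfinitePlace K) ∧ lam ≠ 0 ∧
        (∀ k, Function.Injective (a k)) ∧ M = ‖σ lam‖) ∨
      (1 ≤ M ∧ ∃ D : Fin 2 → ℝ, (∀ k, 0 < D k) ∧
        (∀ k i j, i ≠ j → D k ≤ ‖σ (a k i) - σ (a k j)‖) ∧
        M = ‖σ lam‖ * ∏ k, D k ^ (r k + 1)))
    (h : ((∀ k i, (σ (a k i)).im = 0) ∧ (48 ≤ M ∨ ∃ k, 8 ≤ r k)) ∨
      (25000 ≤ M ∨ ∃ k, 33 ≤ r k)) :
    IsDomain (CRing lam a) ∧
    (∀ x : Fin 2 → ℂ, MvPolynomial.eval₂ σ x (eqn lam a) = 0 →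
      ∃ k, MvPolynomial.eval₂ σ x (MvPolynomial.pderiv k (eqn lam a)) ≠ 0) ∧
    (∀ (L : Type*) [Field L] [Algebra (CRing lam a) L] [IsFractionRing (CRing lam a) L],
      ∀ i : (∀ k, Fin (r k)),
        KQ.map 2 (algebraMap (CRing lam a) L) (symb (ent lam a i)) ∈ Unramified L 2) ∧
    ∃ Γ : (∀ k, Fin (r k)) → Torus (CRing lam a) 1,
      (∀ t θ (x : K), (Γ t).e θ (fpol lam a (MvPolynomial.C x)) = σ x) ∧
      (Matrix.of fun t i : (∀ k, Fin (r k)) => (Γ t).reg (symb (ent lam a i))).det ≠ 0 := by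
  obtain ⟨hM1, D, hD, hsep, hMD⟩ : 1 ≤ M ∧ ∃ D : Fin 2 → ℝ, (∀ k, 0 < D k) ∧
      (∀ k i j, i ≠ j → D k ≤ ‖σ (a k i) - σ (a k j)‖) ∧
      M = ‖σ lam‖ * ∏ k, D k ^ (r k + 1) := by
    rcases hM with ⟨hK, hl, hinj, hM⟩ | hM
    · refine ⟨?_, fun _ => 1, fun _ => one_pos, fun k i j hij => ?_, ?_⟩
      · rw [hM]
        exact Pool.Agent.Helper65K9.KT.one_le_norm hK σ hlam hl
      · rw [← map_sub]
        exact Pool.Agent.Helper65K9.KT.one_le_norm hK σ ((ha k i).sub (ha k j))
          (sub_ne_zero.2 ((hinj k).ne hij))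
      · simp [hM]
    · exact hM
  have hl0 : lam ≠ 0 := by
    intro h0
    rw [hMD, h0, map_zero, norm_zero, zero_mul] at hM1
    linarith
  have hσl : σ lam ≠ 0 := fun h0 => hl0 (σ.injective (by rw [h0, map_zero]))
  have hinj : ∀ k, Function.Injective (a k) := by
    intro k i j hij
    by_contra hne
    have h := hsep k i j hne
    rw [hij, sub_self, norm_zero] at h
    linarith [hD k]
  obtain ⟨h1, h2⟩ := Pool.Agent.Helper65K9.MD.curve hr hD hsep hσl hMD hM1 h.symm
  refine ⟨isDomain_CRing (m := 0) lam a hl0 hinj, h1, fun L _ _ _ i => ?_, h2⟩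
  exact symb_mem_unramified (algebraMap (CRing lam a) L) hlam ha i

end Pool.Agent.Results.MP_0a9c3b_nt.BidegreeCurves
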