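import Pool.Agent.Helper78K9.BC.Main

/-!
# Beilinson's conjecture for `K_2` of curves: descent from large fields

Let `C` be a smooth projective curve of genus `g` over a number field `k`. We view `C` over `ℚ`; put
`d = g [k : ℚ]`. For a number field `K` let `C_K` be the base change of `C` from `ℚ` to `K` (a curve over
`kK` if `k` and `K` are linearly disjoint; in general a curve over the product `k ⊗ K` of number fields).
For `K = ℚ` this is `C` itself.

`CurveData` is the list of the data of `C` that are used (the `λ`-adic realizations of `H^1`; the Galois
module `H = H^2_M(C_A, ℚ(2))_ℤ`, the union of the spaces `H^2_M(C_K, ℚ(2))_ℤ` for all `K`; the homology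
of `C(ℂ)` with `F_∞`; the regulator). For every number field `K`:

* `Beilinson1 X K` is Q1 for `C_K`: `H^2_M(C_K, ℚ(2))_ℤ` and `H_1(C_K(ℂ), ℚ)^-` have the dimension
  `d [K : ℚ]`, and the regulator pairing is nondegenerate;
* `Beilinson2 X K` is Q2 for `C_K` (the first congruence; the second one is the functional equation): the
  L-function exists (meromorphic, without zeros in a right half plane), the order of vanishing at
  `s = 0` is `d [K : ℚ]`, and the leading coefficient is in `ℚ^* det (reg ξ_i γ_j)`.

**Theorem (1).** Let `F` be a finite Galois extension of the number field `K'`. If Q1 and Q2 hold for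
`C_K` for all the fields `K` between `K'` and `F` such that the Galois group of `F` over `K` is
hyperelementary (a cyclic normal subgroup of order prime to `p` with a `p`-group as the quotient), then
they hold for `C_{K'}`.

**Theorem (2).** Let `K'` be a number field, `N` an integer, `S` a finite set of prime numbers and `F₀` a
number field that contains `K'`. If Q1 and Q2 hold for `C_K` for all the fields `K = K' K₀`, where `K₀` is
a totally real Galois extension of `ℚ` with the group `ℤ/p` or `(ℤ/p)²`, `p ≥ N` a prime number,
`K₀` is linearly disjoint from `F₀`, and all the primes of `S` split completely in `K₀`, then they hold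
for `C_{K'}`.

With `K' = ℚ`: Beilinson's conjecture for the curves `C_{K₀}` for all these `K₀` implies Beilinson's
conjecture for `C`; in other words, if it fails for `C`, then it fails for `C_{K₀}` for such fields `K₀`
with arbitrarily large `p`, which have the same completions as `ℚ` at `∞` and at the primes of any given
finite set, for example those of bad reduction. The upper bound for the dimension of
`H^2_M(C_K, ℚ(2))_ℤ`, for which no finiteness is known, is descended, too, and so is the existence of
the L-function.

The proof: the character `1` is an integral linear combination of the characters of the permutation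
representations of the Galois groups on the embeddings of the fields `K₀` (for (1): Solomon's induction
theorem; for (2): in `(ℤ/p)²` one has `p + ind_1 1 = ∑_C ind_C 1`, and one uses two primes `p ≠ q`;
the fields are constructed in cyclotomic fields, with a pigeonhole argument for the primes of `S` and
for `F₀`). An isomorphism over `ℚ` of representations of the Galois group of `ℚ` transports the motivic
cohomology, the homology and the regulator pairing, and the determinants of the regulator and the
L-functions are multiplicative; an orthogonal summand of a nondegenerate pairing is nondegenerate,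
because the dimensions of the homology are known to be additive, and no root of a rational number has
to be extracted.
-/

set_option autoImplicit false

namespace Pool.Agent.Results.MP_0a9c3b_nt.DescentFromLargeFields

open Pool.Agent.Helper78K9.BC

theorem result {A : Type} [Field A] [CharZero A] [IsAlgClosed A] [Algebra.IsAlgebraic ℚ A] {d : ℕ}
    (X : CurveData A d) (K' : IntermediateField ℚ A) [FiniteDimensional ℚ K'] :
    (∀ (F : IntermediateField ℚ A) [FiniteDimensional ℚ F]
      [(F.fixingSubgroup.subgroupOf K'.fixingSubgroup).Normal], K' ≤ F →
      (∀ (K : IntermediateField ℚ A) [FiniteDimensional ℚ K], K' ≤ K → K ≤ F →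
        Pool.Agent.R389.Hyper ((K.fixingSubgroup.subgroupOf K'.fixingSubgroup).map
          (QuotientGroup.mk' (F.fixingSubgroup.subgroupOf K'.fixingSubgroup))) →
        Beilinson1 X K ∧ Beilinson2 X K) →
      Beilinson1 X K' ∧ Beilinson2 X K') ∧
    (∀ (N : ℕ) (S : Finset ℕ), (∀ l ∈ S, l.Prime) →
      ∀ (F₀ : IntermediateField ℚ A) [FiniteDimensional ℚ F₀], K' ≤ F₀ →
      (∀ (p : ℕ) (K₀ : IntermediateField ℚ A) [FiniteDimensional ℚ K₀]
        [FiniteDimensional ℚ (K' ⊔ K₀ : IntermediateField ℚ A)], p.Prime → N ≤ p → IsSmall p K₀ →
        K₀ ⊓ F₀ = ⊥ → (∀ l ∈ S, SplitsCompletely l K₀) →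
        Beilinson1 X (K' ⊔ K₀) ∧ Beilinson2 X (K' ⊔ K₀)) →
      Beilinson1 X K' ∧ Beilinson2 X K') :=
  ⟨fun F _ _ hF h => relative_descent X K' F hF h,
    fun N S hS F₀ _ hF₀ h => small_descent X K' N S hS F₀ hF₀ h⟩

end Pool.Agent.Results.MP_0a9c3b_nt.DescentFromLargeFields
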