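import Pool.Agent.Helper65K9.KT.Main
import Pool.Agent.TH690.UF.Final
set_option autoImplicit false

/-!
Integral `K_2` of hyperelliptic curves of genus `g ≥ 30` over number fields `K` with only one infinite
place (`K` imaginary quadratic or `K = ℚ`): for *every* polynomial `F` of degree `g + 1` with algebraic
integers of `K` as coefficients, that has special values `ζ + 1/ζ` (`ζ` roots of unity) at `g + 1`
different algebraic integers `b_m` of `K`, on the curve `z + 1/z = F(x)` the `g` symbols
`{z, (x - b_k) / (x - b_0)}` are unramified, and their regulators on `g` loops of the curve are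
independent, without any condition on the leading coefficient `μ` of `F` or on the distances of the
`b_m`. For an arbitrary number field with an embedding `s` in `ℂ` this holds as soon as the mutual
distances of the `s b_m` are at least `D` and `|s μ| D ^ (g + 1) ≥ 1`.

The proof: by packing of discs only few of the points `s b_m` are close to each other, which bounds
the products of the distances from below. Built on the starting libraries
`Pool/Agent/TH826/UH`, `Pool/Agent/Y94/UG` and `Pool/Agent/TH690/UF`.
-/

namespace Pool.Agent.Results.MP_0a9c3b_nt.OnePlaceFields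

open Polynomial

open Pool.Agent.TH826.MK (KQ symb Torus Unramified)

open Pool.Agent.TH826.HD (PRing POpen pent toP pcst pDel isDomain_PRing pDel_ne_zero liftP
  liftP_toP)

open Pool.Agent.TH690.UF (SmoothPts)

/-- Let `g ≥ 30`, let `K` be a number field, `s : K → ℂ` an embedding, `F` a polynomial of degree
`g + 1` whose coefficients are algebraic integers of `K`, and `b_0, ..., b_g` different algebraic
integers of `K` such that all `F(b_m)` are of the form `ζ + 1/ζ` with roots of unity `ζ` (in `ℂ`, via
`s`). Suppose that `K` has only one infinite place (`K` is imaginary quadratic or `K = ℚ`), or that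
for some `D > 0` the distances `|s b_i - s b_j|`, `i ≠ j`, are at least `D` and
`|s μ| D ^ (g + 1) ≥ 1`, where `μ` is the leading coefficient of `F`. Then the coordinate ring of the
plane curve `z² - F(x) z + 1 = 0` over `K` is a domain, the curve is smooth at its complex points over
`s`, the symbols `{z, (x - b_m) / (x - b_l)}` are unramified at all discrete valuations of the
function field, and there are `g` loops in the complex points over `s` of the open part
`∏_m (x - b_m) ≠ 0` of the curve such that the determinant of the regulators on the loops of the `g`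
symbols `{z, (x - b_k) / (x - b_0)}`, `1 ≤ k ≤ g`, does not vanish. -/
theorem result.{u, v} (g : ℕ) (hg : 30 ≤ g) (K : Type u) [Field K] [NumberField K] (s : K →+* ℂ)
    (F : K[X]) (hF : ∀ i, IsIntegral ℤ (F.coeff i)) (hdeg : F.natDegree = g + 1)
    (b : Fin (g + 1) → K) (hb : ∀ m, IsIntegral ℤ (b m)) (hinj : Function.Injective b)
    (hζ : ∀ m, ∃ (ζ : ℂ) (k : ℕ), k ≠ 0 ∧ ζ ^ k = 1 ∧ s (F.eval (b m)) = ζ + ζ⁻¹)
    (hK : Subsingleton (NumberField.InfinitePlace K) ∨
      ∃ D : ℝ, 0 < D ∧ (∀ i j, i ≠ j → D ≤ ‖s (b i) - s (b j)‖) ∧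
        1 ≤ ‖s F.leadingCoeff‖ * D ^ (g + 1)) :
    IsDomain (PRing F) ∧ SmoothPts s F ∧
    (∀ (L : Type v) [Field L] [Algebra (PRing F) L] [IsFractionRing (PRing F) L],
      ∃ f : POpen F b →+* L, (∀ r : PRing F, f (toP F b r) = algebraMap (PRing F) L r) ∧
        ∀ m l, KQ.map 2 f (symb (pent F b m l)) ∈ Unramified L 2) ∧
    ∃ Γ : Fin g → Torus (POpen F b) 1,
      (∀ l θ (y : K), (Γ l).e θ (pcst F b y) = s y) ∧
      (Matrix.of fun l k : Fin g => (Γ l).reg (symb (pent F b k.succ 0))).det ≠ 0 := by
  obtain ⟨D, hD, hsep, hlead1⟩ := Pool.Agent.Helper65K9.KT.exists_D hF hdeg hb hinj hK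
  have hζ' : ∀ i, ∃ ζ : ℂ, ‖ζ‖ = 1 ∧ s (F.eval (b i)) = ζ + ζ⁻¹ := by
    intro i
    obtain ⟨ζ, k, hk, h1, h2⟩ := hζ i
    refine ⟨ζ, ?_, h2⟩
    have h3 := congrArg norm h1
    rw [norm_pow, norm_one] at h3
    exact (pow_eq_one_iff_of_nonneg (norm_nonneg _) hk).1 h3
  have hev : ∀ i, (F.map s).eval (s (b i)) = s (F.eval (b i)) := fun i => by
    rw [eval_map, eval₂_hom]
  have hlead : (F.map s).leadingCoeff = s F.leadingCoeff := leadingCoeff_map s
  have hval2 : ∀ i, ‖(F.map s).eval (s (b i))‖ ≤ 2 := by
    intro i
    obtain ⟨ζ, hn, he⟩ := hζ' i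
    rw [hev, he]
    refine (norm_add_le _ _).trans ?_
    rw [norm_inv, hn]
    norm_num
  obtain ⟨η, H⟩ := Pool.Agent.Helper65K9.KT.sepd (F := F.map s) (b := fun i => s (b i)) (D := D)
    hg (by rw [natDegree_map, hdeg]) hD hsep hval2 (by rw [hlead]; exact hlead1)
  have hdegF : 0 < F.natDegree := by omega
  have hlam : 0 < ‖s F.leadingCoeff‖ := by
    rw [norm_pos_iff, Ne, map_eq_zero, leadingCoeff_eq_zero]
    rintro rfl
    rw [natDegree_zero] at hdeg
    omega
  refine ⟨isDomain_PRing hdegF, fun x z h => Pool.Agent.TH826.UH.smooth_of_sepd H h, ?_, ?_⟩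
  · intro L _ _ _
    have hinj : Function.Injective (algebraMap (PRing F) L) := IsFractionRing.injective _ _
    have hne : algebraMap (PRing F) L (pDel F b) ≠ 0 := by
      rw [Ne, map_eq_zero_iff _ hinj]
      exact pDel_ne_zero b
    exact ⟨liftP (algebraMap (PRing F) L) hne, fun r => liftP_toP _ _ _,
      fun m l => Pool.Agent.TH826.UH.symb_mem_unramified _ s hF hb m l hζ⟩
  · refine Pool.Agent.Y94.UG.exists_loops H (fun i j => ‖s (b i) - s (b j)‖ - D / 32)
      (fun i j hij => ?_) (fun p q hpq => ?_) hζ'
    · have h1 := hsep i j hij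
      refine ⟨by linarith, ?_⟩
      rw [norm_sub_rev (s (b j))]
      linarith
    · rw [hlead]
      exact Pool.Agent.Helper65K9.KT.crit_scaled (b := fun i => s (b i)) hg hD hsep hlam
        hlead1 p q hpq

end Pool.Agent.Results.MP_0a9c3b_nt.OnePlaceFields
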