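import Pool.Agent.Helper51K9.BK.Fin

/-!
# Beilinson's conjecture for `K_2` of curves: Artin twists and the unspecified constant

Let `C` be a curve of genus `g` over a number field `k` and let `Ω` be a finite Galois extension of `k`.
For a representation `ρ` of the Galois group of `Ω` over `k` with values in a number field `E'` there
are the L-function of `C ⊗ ρ`, the parts of `E' ⊗ H_1^-` and of `E' ⊗ H^2_M(ℚ(2))_ℤ` that belong to
`C ⊗ ρ`, and the regulator. Beilinson's conjectures say for `C ⊗ ρ`: both parts have dimension
`g [k : ℚ] dim ρ` and the regulator is nondegenerate (Q1); the leading coefficient of the L-function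
at `s = 0` (where its order is `g [k : ℚ] dim ρ`) is the determinant of the regulator, up to `E'^×`
(Q2). If `ρ` is induced from the trivial representation of the Galois group of `Ω` over `K` they are
the conjectures for the curve `C_K` (`Curve.Classical`, see `classical_iff`).

**Theorem.** (1) The following are equivalent:

* for all `K` between `k` and `Ω` such that the Galois group of `Ω` over `K` is NILPOTENT, and all
  characters `ψ` of this group with values in number fields `E'`: the L-functions of `C_K ⊗ ψ` and `C_K`
  exist, Q1 and the statement on the order hold for them, and the quotient of the leading coefficient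
  by the regulator is the same for `C_K ⊗ ψ` and for `C_K`, in `(E' ⊗ ℂ)^× / E'^×`;
* for ALL representations `ρ` of the Galois group of `Ω` over `k` with values in number fields `E'`: the
  L-function of `C ⊗ ρ` exists, Q1 and the statement on the order hold, and the quotient for `C ⊗ ρ` is
  the one for `C` to the power `dim ρ`, in `(E' ⊗ ℂ)^× / E'^×`.

(2) If this is the case, and Q1 and Q2 hold for `C` (or for twists whose degrees have no common
divisor), then Q1 and Q2 hold for all `C ⊗ ρ`, and, in their classical form, for all the curves `C_K`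
over the fields `K` between `k` and `Ω`.
-/

namespace Pool.Agent.Results.MP_0a9c3b_nt.TwistInvariance

open Pool.Agent.Helper51K9.TI Pool.Agent.Helper51K9.BK

theorem result {A : Type} [Field A] [CharZero A] [IsAlgClosed A] [Algebra.IsAlgebraic ℚ A]
    (k : IntermediateField ℚ A) [FiniteDimensional ℚ k] {g : ℕ} {H H₁ : Type} [AddCommGroup H]
    [Module ℚ H] [AddCommGroup H₁] [Module ℚ H₁] (C : Curve k g H H₁)
    (Ω : IntermediateField ℚ A) [FiniteDimensional ℚ Ω] (hΩ : k ≤ Ω) [(gal k Ω).Normal] :
    (C.TwistInvariance Ω ↔ C.Powers Ω) ∧
    (C.TwistInvariance Ω →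
      (C.SomeBeilinson Ω ∨ ∀ [Fintype (k.fixingSubgroup ⧸ gal k k)]
        [DecidableEq (k.fixingSubgroup ⧸ gal k k)], C.Classical (le_refl k)) →
      (∀ (E' : Type) [Field E'] [NumberField E'] [Algebra ℚ E'] (r : Type) [Fintype r]
        [DecidableEq r] (ρ : k.fixingSubgroup →* Matrix r r E'), TrivialOn Ω ρ →
        C.Beilinson ρ) ∧
      ∀ (K : IntermediateField ℚ A) (hK : k ≤ K), K ≤ Ω → ∀ [FiniteDimensional ℚ K]
        [Fintype (k.fixingSubgroup ⧸ gal k K)] [DecidableEq (k.fixingSubgroup ⧸ gal k K)],
        C.Classical hK) := by
  refine ⟨⟨powers C Ω hΩ, twist_of_powers C Ω⟩, fun h h' => ?_⟩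
  have hS : C.SomeBeilinson Ω := h'.elim id (some_of_classical C Ω hΩ)
  exact ⟨all_beilinson C Ω hΩ h hS, fun K hK hKΩ _ _ _ => classical_all C Ω hΩ h hS K hK hKΩ⟩

end Pool.Agent.Results.MP_0a9c3b_nt.TwistInvariance
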